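import Mathlib

/-! The geodesic t ↦ {-1-t, 0, 1+t} has two Hausdorff realizations with non-isometric unions. -/

open Set Metric GromovHausdorff

namespace Pool.Agent.Results.MP_457a5a_gt.Counter

def pos (t : ℝ) : Fin 3 → ℝ := ![-1 - t, 0, 1 + t]

def hgt (t : ℝ) : Fin 3 → ℝ := ![0, t, 0]

def P (_ : unitInterval) : Type := Fin 3

instance (t : unitInterval) : Fintype (P t) := inferInstanceAs (Fintype (Fin 3))
instance (t : unitInterval) : Nonempty (P t) := inferInstanceAs (Nonempty (Fin 3))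

lemma pos_inj (t : unitInterval) : Function.Injective (pos t) := by
  intro i j h
  have := t.2.1
  fin_cases i <;> fin_cases j <;> simp [pos] at h ⊢ <;> linarith

noncomputable instance (t : unitInterval) : MetricSpace (P t) :=
  MetricSpace.induced (fun i : Fin 3 => pos t i) (pos_inj t) inferInstance

lemma dist_eq (t : unitInterval) (i j : Fin 3) :
    @dist (P t) _ i j = |pos t i - pos t j| := rfl

abbrev X : Type := Icc (-2 : ℝ) 2
abbrev Y : Type := closedBall (0 : ℝ × ℝ) 3

instance : CompactSpace Y := isCompact_iff_compactSpace.mp (isCompact_closedBall _ _)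

def φ (t : unitInterval) (i : P t) : X := ⟨pos t i, by
  have h0 := t.2.1
  have h1 := t.2.2
  revert i
  intro (i : Fin 3)
  fin_cases i <;> simp [pos] <;> constructor <;> linarith⟩

def ψ (t : unitInterval) (i : P t) : Y := ⟨(pos t i, hgt t i), by
  have h0 := t.2.1
  have h1 := t.2.2
  revert i
  intro (i : Fin 3)
  rw [mem_closedBall_zero_iff, Prod.norm_def, max_le_iff, Real.norm_eq_abs, Real.norm_eq_abs,
    abs_le, abs_le]
  fin_cases i <;> simp [pos, hgt] <;> (try constructor) <;> linarith⟩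

lemma φ_dist (s t : unitInterval) (i j : Fin 3) :
    dist (φ s i) (φ t j) = |pos s i - pos t j| := rfl

lemma ψ_dist (s t : unitInterval) (i j : Fin 3) :
    dist (ψ s i) (ψ t j) = max |pos s i - pos t j| |hgt s i - hgt t j| := rfl

lemma φ_iso (t : unitInterval) : Isometry (φ t) := Isometry.of_dist_eq fun _ _ => rfl

lemma ψ_iso (t : unitInterval) : Isometry (ψ t) := Isometry.of_dist_eq fun (i j : Fin 3) => by
  rw [ψ_dist, dist_eq]
  apply max_eq_left
  have h0 := t.2.1
  fin_cases i <;> fin_cases j <;> simp [pos, hgt] <;>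
    rw [abs_of_nonneg h0] <;> first
      | exact le_abs.mpr (Or.inl (by linarith))
      | exact le_abs.mpr (Or.inr (by linarith))

lemma fin_H {Z : Type} [MetricSpace Z] {s t : unitInterval} (f : P s → Z) (g : P t → Z) :
    hausdorffEDist (range f) (range g) ≠ ⊤ :=
  hausdorffEDist_ne_top_of_nonempty_of_bounded (range_nonempty _) (range_nonempty _)
    (finite_range f).isBounded (finite_range g).isBounded

lemma lower1 {Z : Type} [MetricSpace Z] {s t : unitInterval} {f : P s → Z} {g : P t → Z}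
    (hf : Isometry f) (hg : Isometry g) : (s : ℝ) - t ≤ hausdorffDist (range f) (range g) := by
  by_contra h
  push Not at h
  obtain ⟨_, ⟨j, rfl⟩, hj⟩ := exists_dist_lt_of_hausdorffDist_lt
    (mem_range_self (f := f) (0 : Fin 3)) h (fin_H f g)
  obtain ⟨_, ⟨k, rfl⟩, hk⟩ := exists_dist_lt_of_hausdorffDist_lt
    (mem_range_self (f := f) (2 : Fin 3)) h (fin_H f g)
  have t1 := dist_triangle4 (f (0 : Fin 3)) (g j) (g k) (f (2 : Fin 3))
  have e1 : dist (f (0 : Fin 3)) (f (2 : Fin 3)) = 2 + 2 * s := by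
    rw [hf.dist_eq, dist_eq]
    have := s.2.1
    simp only [pos, Matrix.cons_val_zero, Matrix.cons_val]
    rw [abs_of_nonpos (by linarith)]
    ring
  have e2 : dist (g j) (g k) ≤ 2 + 2 * t := by
    rw [hg.dist_eq]
    have := t.2.1
    revert j k
    intro (j : Fin 3) _ (k : Fin 3) _ _
    rw [dist_eq, abs_le]
    fin_cases j <;> fin_cases k <;> simp [pos] <;> (try constructor) <;> linarith
  rw [dist_comm (g k)] at t1
  linarith

lemma lower {Z : Type} [MetricSpace Z] {s t : unitInterval} {f : P s → Z} {g : P t → Z}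
    (hf : Isometry f) (hg : Isometry g) : |(s : ℝ) - t| ≤ hausdorffDist (range f) (range g) := by
  rw [abs_le]
  refine ⟨?_, lower1 hf hg⟩
  have := lower1 hg hf
  rw [hausdorffDist_comm] at this
  linarith

lemma upper {Z : Type} [MetricSpace Z] {s t : unitInterval} {f : P s → Z} {g : P t → Z}
    (h : ∀ i : Fin 3, dist (f i) (g i) ≤ |(s : ℝ) - t|) :
    hausdorffDist (range f) (range g) ≤ |(s : ℝ) - t| := by
  apply hausdorffDist_le_of_mem_dist (abs_nonneg _)
  · rintro _ ⟨i, rfl⟩
    exact ⟨_, mem_range_self (f := g) i, h i⟩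
  · rintro _ ⟨i, rfl⟩
    exact ⟨_, mem_range_self (f := f) i, by rw [dist_comm]; exact h i⟩

lemma pos_close (s t : ℝ) (i : Fin 3) : |pos s i - pos t i| ≤ |s - t| := by
  fin_cases i
  · simp [pos, abs_sub_comm]
  · simp [pos]
  · simp [pos]

lemma hgt_close (s t : ℝ) (i : Fin 3) : |hgt s i - hgt t i| ≤ |s - t| := by
  fin_cases i <;> simp [hgt]

lemma φ_H (s t : unitInterval) : hausdorffDist (range (φ s)) (range (φ t)) = |(s : ℝ) - t| :=
  le_antisymm (upper fun i => by rw [φ_dist]; exact pos_close _ _ _) (lower (φ_iso s) (φ_iso t))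

lemma ψ_H (s t : unitInterval) : hausdorffDist (range (ψ s)) (range (ψ t)) = |(s : ℝ) - t| :=
  le_antisymm (upper fun i => by
    rw [ψ_dist]; exact max_le (pos_close _ _ _) (hgt_close _ _ _)) (lower (ψ_iso s) (ψ_iso t))

lemma gh (s t : unitInterval) : ghDist (P s) (P t) = |(s : ℝ) - t| := by
  apply le_antisymm
  · rw [← φ_H]; exact ghDist_le_hausdorffDist (φ_iso s) (φ_iso t)
  · rw [← hausdorffDist_optimal]
    exact lower (isometry_optimalGHInjl _ _) (isometry_optimalGHInjr _ _)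

lemma other (t : unitInterval) : ∃ s : unitInterval, |(s : ℝ) - t| = 1 / 2 := by
  have h0 := t.2.1
  have h1 := t.2.2
  rcases le_total (t : ℝ) (1 / 2) with h | h
  · exact ⟨⟨t + 1 / 2, by constructor <;> linarith⟩, by simp⟩
  · exact ⟨⟨t - 1 / 2, by constructor <;> linarith⟩, by simp⟩

theorem result : ∃ (Γ : unitInterval → Type) (_ : ∀ t, MetricSpace (Γ t))
    (_ : ∀ t, CompactSpace (Γ t)) (_ : ∀ t, Nonempty (Γ t))
    (X Y : Type) (_ : MetricSpace X) (_ : MetricSpace Y) (_ : CompactSpace X) (_ : CompactSpace Y)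
    (φ : ∀ t, Γ t → X) (ψ : ∀ t, Γ t → Y),
    0 < ghDist (Γ 0) (Γ 1) ∧
    (∀ s t, ghDist (Γ s) (Γ t) = |(s : ℝ) - t| * ghDist (Γ 0) (Γ 1)) ∧
    IsEmpty (X ≃ᵢ Y) ∧
    (∀ t, Isometry (φ t)) ∧ (∀ t, Isometry (ψ t)) ∧
    (∀ s t, hausdorffDist (range (φ s)) (range (φ t)) = ghDist (Γ s) (Γ t)) ∧
    (∀ s t, hausdorffDist (range (ψ s)) (range (ψ t)) = ghDist (Γ s) (Γ t)) ∧
    IsEmpty ((⋃ t, range (φ t) : Set X) ≃ᵢ (⋃ t, range (ψ t) : Set Y)) := by
  refine ⟨P, inferInstance, inferInstance, inferInstance, X, Y, inferInstance, inferInstance,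
    inferInstance, inferInstance, φ, ψ, by simp [gh], fun s t => by simp [gh], ⟨fun e => ?_⟩,
    φ_iso, ψ_iso, fun s t => by rw [φ_H, gh], fun s t => by rw [ψ_H, gh], ⟨fun e => ?_⟩⟩
  · let a : Y := ⟨(3, 0), by simp [Prod.norm_def]⟩
    let b : Y := ⟨(-3, 0), by simp [Prod.norm_def]⟩
    have h1 : dist a b = 6 := by
      change max |(3 : ℝ) - -3| |(0 : ℝ) - 0| = 6
      norm_num
    have h2 := e.symm.dist_eq a b
    have h3 := (e.symm a).2
    have h4 := (e.symm b).2
    have h5 : dist (e.symm a) (e.symm b) = |(e.symm a : ℝ) - e.symm b| := rfl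
    have h6 : |(e.symm a : ℝ) - e.symm b| ≤ 4 := by
      rw [abs_le]; constructor <;> linarith [h3.1, h3.2, h4.1, h4.2]
    linarith
  · let c : (⋃ t, range (φ t) : Set X) :=
      ⟨φ 0 (1 : Fin 3), mem_iUnion.mpr ⟨0, mem_range_self _⟩⟩
    obtain ⟨t, i, hi⟩ := mem_iUnion.mp (e c).2
    obtain ⟨s, hs⟩ := other t
    let d : (⋃ t, range (ψ t) : Set Y) := ⟨ψ s i, mem_iUnion.mpr ⟨s, mem_range_self _⟩⟩
    have h1 : dist d (e c) = 1 / 2 := by
      rw [Subtype.dist_eq, ← hi, ← hs]
      revert i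
      intro (i : Fin 3) _ _
      change dist (ψ s i) (ψ t i) = _
      rw [ψ_dist]
      fin_cases i
      · simp [pos, hgt, abs_sub_comm]
      · simp [pos, hgt]
      · simp [pos, hgt]
    have h2 := e.dist_eq (e.symm d) c
    rw [e.apply_symm_apply, h1] at h2
    obtain ⟨u, j, hj⟩ := mem_iUnion.mp (e.symm d).2
    rw [Subtype.dist_eq, ← hj] at h2
    have h0 := u.2.1
    clear hj
    revert j
    intro (j : Fin 3) h2
    change _ = dist (φ u j) (φ 0 (1 : Fin 3)) at h2
    rw [φ_dist] at h2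
    fin_cases j
    · simp only [pos, Fin.zero_eta, Matrix.cons_val_zero, Matrix.cons_val_one, sub_zero] at h2
      rw [abs_of_nonpos (by linarith)] at h2
      linarith
    · simp [pos] at h2
    · simp only [pos, Fin.reduceFinMk, Matrix.cons_val, sub_zero] at h2
      rw [abs_of_nonneg (by linarith)] at h2
      linarith

end Pool.Agent.Results.MP_457a5a_gt.Counter
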